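import Pool.Agent.R87.PX3

/-!
# Coboundary expanders of bounded vertex degree with permutation coefficients

The graph of `X m` is the Margulis expander on the torus `(ℤ/(m+1))²` (every vertex lies on eight
edges, a loop counting twice). The polygons are the fundamental cycles of a spanning tree and
equally many parallel copies of an Euler circuit, which make the distributions on edges and on
vertices descending from the uniform distribution on polygons uniform up to constants. The
perimeters of the polygons are not bounded.
-/

set_option autoImplicit false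

namespace Pool.Agent.Results.MP_d4a15d_co.BoundedVertexDegree
open Pool.Agent.R87.PX

/-- Q1 as stated: there are `k`, `lam > 0` and a sequence of connected finite polygonal complexes
with pairwise different numbers of vertices, all vertex degrees at most `k`, and
`h_0^B(X_m, Sym) ≥ lam`, `h_1^B(X_m, Sym) ≥ lam` for all `m`. Moreover explicit constants, and the
same for the uniform distributions on vertices, edges and polygons. -/
theorem result :
    (∃ (k : ℕ) (lam : ℝ) (X : ℕ → PolygonalComplex), 0 < lam ∧
      (∀ m m' : ℕ, m ≠ m' → Fintype.card (X m).V ≠ Fintype.card (X m').V) ∧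
      ∀ m, (X m).IsConnected ∧ (∀ v, (X m).degree v ≤ k) ∧ (X m).H0ge lam ∧ (X m).H1ge lam) ∧
    ∀ m : ℕ, 1 ≤ m → ∃ X : PolygonalComplex, Fintype.card X.V = m ^ 2 ∧ X.IsConnected ∧
      (∀ v, X.degree v ≤ 8) ∧ X.H0ge (1 / 25600) ∧ X.H1ge (1 / 4) ∧
      X.H0geU (1 / 3200) ∧ X.H1geU (1 / 2) := by
  refine ⟨?_, main⟩
  choose X hX using fun m : ℕ => main (m + 1) (by omega)
  refine ⟨8, 1 / 25600, X, by norm_num, ?_, ?_⟩
  · intro m m' h h'
    rw [(hX m).1, (hX m').1] at h'
    have := Nat.pow_left_injective (n := 2) (by norm_num) h'
    omega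
  · intro m
    obtain ⟨_, h2, h3, h4, h5, _, _⟩ := hX m
    refine ⟨h2, h3, h4, ?_⟩
    intro n hn α
    obtain ⟨β, hβ⟩ := h5 n hn α
    refine ⟨β, le_trans ?_ hβ⟩
    refine mul_le_mul_of_nonneg_right (by norm_num) ?_
    refine Finset.sum_nonneg fun e _ => mul_nonneg ?_ (dH_nonneg _ _)
    unfold PolygonalComplex.mu1 PolygonalComplex.m1
    exact div_nonneg (by positivity) (Finset.sum_nonneg fun _ _ => by positivity)

end Pool.Agent.Results.MP_d4a15d_co.BoundedVertexDegree
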